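import Pool.Agent.KS6_96.Pen.Powers

/-!
# The pseudo-Anosov classes of the four-punctured sphere with a power arising from Penner's
# construction

The mapping classes of the four-punctured sphere `S` are described through the fundamental group
`F3 = ⟨p 0, p 1, p 2, p 3 | p 0 * p 1 * p 2 * p 3 = 1⟩` (file `Pool/Agent/KS6_96/Pen/Defs.lean`):

* `Geometric ε f`: the automorphism `f` of `F3` maps the four peripheral loops, up to conjugacy, to
  a permutation of their `ε`-th powers.  By the Dehn-Nielsen-Baer theorem the mapping classes of `S`
  are the classes in `OutF3` of these automorphisms; `ε = 1` for the orientation-preserving and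
  `ε = -1` for the orientation-reversing ones.
* `IsPseudoAnosov f`: no positive power of `f` preserves an essential simple closed curve.
* `ArisesFromPenner h`: `h` is a product of Dehn twists about the components of a multicurve `A` and
  inverse Dehn twists about the components of a multicurve `B`, where `A` and `B` fill `S` and all
  the components occur.
* `lin f` (file `Pool/Agent/KS6_96/Pen/Alg.lean`): the matrix of the action of `f` on the first
  homology of the torus which is the double cover of `S` branched at the punctures.

Words are lists of letters `true = L = !![1, 1; 0, 1]` and `false = R = !![1, 0; 1, 1]`, and `LR c` is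
the product of the letters of `c`.

* `IsCode f c`: the word `c` contains both letters, and the square of `lin f` is conjugate in
  `SL(2, ℤ)` to `LR c`.
* `rep j c`: the word `c` repeated `j` times; `swp w`: the word `w` with `L` and `R` exchanged.
* `dbl l`: every letter of `l` is doubled.
* `blk m (p, q)`: the block `L ^ (2 p + 1) (R m L) R ^ (2 q + 1) (L m' R)`, where `m'` is `m` read
  backwards with the letters exchanged.
* `PennerWord c`: `c` is a rotation of a doubled word or, for some word `m`, of a concatenation of
  blocks `blk m (p, q)`.
-/

set_option autoImplicit false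

namespace Pool.Agent.Results.MP_e87149_gt.PennerClassification

open Pool.Agent.KS6_96.Pen

/-- **Theorem.** Let `f` be a mapping class of the four-punctured sphere, preserving or reversing
the orientation.  It is pseudo-Anosov if and only if it has a code, and the code `c` is unique up to
rotation.  Some positive power of `f` arises from Penner's construction if and only if some power of
the word `c` is a Penner word, and this is a finite condition on `c`.  The codes of the
orientation-reversing pseudo-Anosov classes are, up to rotation, exactly the words `w w'` with `w`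
not empty and `w' = swp w`.  For `w = L ^ t` a power arises from Penner's construction if and only
if `t = 1` or `t` is even. -/
theorem result :
    (∀ (ε : ℤˣ) (f : MulAut F3), Geometric ε f →
      (IsPseudoAnosov f ↔ ∃ c, IsCode f c) ∧
      (∀ c c', IsCode f c → IsCode f c' → c ~r c') ∧
      ∀ c, IsCode f c →
        ((∃ k : ℕ, 1 ≤ k ∧ ArisesFromPenner ((f ^ k : MulAut F3) : OutF3)) ↔
          ∃ j : ℕ, 1 ≤ j ∧ PennerWord (rep j c)) ∧
        ((∃ j : ℕ, 1 ≤ j ∧ PennerWord (rep j c)) ↔
          (∃ l, c ~r dbl l) ∨
          ∃ (m : List Bool) (ps : List (ℕ × ℕ)) (j : ℕ), 1 ≤ j ∧ m.length < c.length ∧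
            ps.length ≤ c.length ∧
            (∀ p ∈ ps, 2 * p.1 + 1 < c.length ∧ 2 * p.2 + 1 < c.length) ∧
            rep j c ~r ps.flatMap (blk m))) ∧
    (∀ f : MulAut F3, Geometric (-1) f → IsPseudoAnosov f →
      ∃ w : List Bool, w ≠ [] ∧ IsCode f (w ++ swp w)) ∧
    (∀ w : List Bool, w ≠ [] → ∃ f : MulAut F3, Geometric (-1) f ∧ IsPseudoAnosov f ∧
      IsCode f (w ++ swp w)) ∧
    ∀ (t : ℕ) (f : MulAut F3), 1 ≤ t → Geometric (-1) f →
      IsCode f (List.replicate t true ++ swp (List.replicate t true)) →
      ((∃ k : ℕ, 1 ≤ k ∧ ArisesFromPenner ((f ^ k : MulAut F3) : OutF3)) ↔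
        t = 1 ∨ Even t) := by
  have main : ∀ (ε : ℤˣ) (f : MulAut F3), Geometric ε f → ∀ c, IsCode f c →
      ((∃ k : ℕ, 1 ≤ k ∧ ArisesFromPenner ((f ^ k : MulAut F3) : OutF3)) ↔
          ∃ j : ℕ, 1 ≤ j ∧ PennerWord (rep j c)) := by
    intro ε f hf c hc
    constructor
    · rintro ⟨k, hk, ha⟩
      exact ⟨k, hk, necessity hf hc hk ha⟩
    · rintro ⟨j, hj, hw⟩
      exact sufficiency hf hc hj hw
  refine ⟨fun ε f hf => ⟨⟨exists_code hf, fun ⟨c, hc⟩ => pseudoAnosov_of_code hf hc⟩,
    fun c c' hc hc' => code_unique hc hc', fun c hc => ⟨main ε f hf c hc,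
      finite_criterion hc.1 hc.2.1⟩⟩, fun f hf hpA => exists_code_neg hf hpA, ?_, ?_⟩
  · intro w hw
    exact ⟨revClass w, revClass_geometric w,
      pseudoAnosov_of_code (revClass_geometric w) (revClass_code hw), revClass_code hw⟩
  · intro t f ht hf hc
    rw [main (-1) f hf _ hc, code_pow]
    exact pow_criterion ht

end Pool.Agent.Results.MP_e87149_gt.PennerClassification
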